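import Mathlib
import Pool.Agent.R76.B50.Main

/-!
# MP_b50c09_co: almost-perfect tripartite packings in regular 3-graphs

For every 3-graph `H` with a nonempty vertex set that is tripartite and every `0 < c < 1` there is
a constant `C` such that every vertex-regular (even: almost vertex-regular) 3-graph on `n` vertices
in which all pairs have degree at least `c n` has an `H`-packing covering all but at most `C`
vertices.
-/

set_option autoImplicit false
set_option linter.unusedSectionVars false

namespace Pool.Agent.Results.MP_b50c09_co.AllTripartite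

open Finset Pool.Agent.R76.B50

universe u v

/-- A 3-graph on the vertex set `V`: a set of 3-element subsets of `V`. -/
def IsThreeGraph {V : Type u} (E : Finset (Finset V)) : Prop := ∀ e ∈ E, e.card = 3

/-- `F` is tripartite: the vertices can be split in three sets (the fibres of `part`) so that
every edge has exactly one vertex in each of them. -/
def IsTripartite {W : Type v} (F : Finset (Finset W)) : Prop :=
  ∃ part : W → Fin 3, ∀ e ∈ F, ∀ i : Fin 3, ∃! x, x ∈ e ∧ part x = i

variable {V : Type u} [Fintype V] [DecidableEq V]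

/-- The degree of a vertex: the number of edges containing it. -/
def deg (E : Finset (Finset V)) (v : V) : ℕ := (E.filter (fun e => v ∈ e)).card

/-- The degree of a pair `u, v`: the number of `w ∉ {u, v}` with `{u, v, w}` an edge. -/
def pairDeg (E : Finset (Finset V)) (u v : V) : ℕ :=
  (univ.filter (fun w => w ≠ u ∧ w ≠ v ∧ ({u, v, w} : Finset V) ∈ E)).card

/-- `E` has an `F`-packing covering all but at most `C` vertices: there is a finite set `P` of
copies of `F` (injective maps of the vertex set `W` of `F` sending edges to edges), pairwise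
vertex-disjoint, and a set `L` of at most `C` vertices such that every vertex outside `L` lies in
one of the copies. -/
def HasPacking {W : Type v} (F : Finset (Finset W)) (E : Finset (Finset V)) (C : ℕ) : Prop :=
  ∃ P : Finset (W → V),
    (∀ f ∈ P, Function.Injective f ∧ ∀ e ∈ F, e.image f ∈ E) ∧
    (∀ f ∈ P, ∀ g ∈ P, f ≠ g → ∀ x y, f x ≠ g y) ∧
    ∃ L : Finset V, L.card ≤ C ∧ ∀ v, v ∉ L → ∃ f ∈ P, ∃ x, f x = v

/-! ### The proof -/

/-- the ternary relation -/
def rel (E : Finset (Finset V)) (a b c : V) : Prop :=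
  a ≠ b ∧ b ≠ c ∧ a ≠ c ∧ ({a, b, c} : Finset V) ∈ E

lemma rel_sym (E : Finset (Finset V)) : Sym3 (rel E) := by
  refine ⟨?_, ?_, ?_⟩
  · rintro x y z ⟨h1, h2, h3, h4⟩
    refine ⟨h1.symm, h3, h2, ?_⟩
    rwa [Finset.insert_comm]
  · rintro x y z ⟨h1, h2, h3, h4⟩
    refine ⟨h3, h2.symm, h1, ?_⟩
    rwa [Finset.pair_comm]
  · rintro x y z ⟨h1, h2, h3, h4⟩
    exact h1

lemma cnt_pairDeg (E : Finset (Finset V)) {u v : V} (huv : u ≠ v) :
    cnt (fun w => rel E u v w) = pairDeg E u v := by
  classical
  rw [cnt_eq]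
  unfold pairDeg rel
  congr 1
  ext w
  simp only [Finset.mem_filter, Finset.mem_univ, true_and]
  constructor
  · rintro ⟨_, h2, h3, h4⟩
    exact ⟨h3.symm, h2.symm, h4⟩
  · rintro ⟨h1, h2, h3⟩
    exact ⟨huv, h2.symm, h1.symm, h3⟩

lemma cnt_deg (E : Finset (Finset V)) (hE : IsThreeGraph E) (v : V) :
    cnt (fun p : V × V => rel E v p.1 p.2) = 2 * deg E v := by
  classical
  rw [cnt_eq, Finset.card_eq_sum_card_fiberwise (f := fun p : V × V => ({v, p.1, p.2} : Finset V))
    (t := E.filter (fun e => v ∈ e))]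
  · have h1 : ∀ e ∈ E.filter (fun e => v ∈ e),
        ((univ.filter (fun p : V × V => rel E v p.1 p.2)).filter
          (fun p : V × V => ({v, p.1, p.2} : Finset V) = e)).card = 2 := by
      intro e he
      rw [Finset.mem_filter] at he
      have hc : (e.erase v).card = 2 := by
        rw [Finset.card_erase_of_mem he.2, hE e he.1]
      obtain ⟨a, b, hab, h⟩ := Finset.card_eq_two.1 hc
      have hva : v ≠ a := by
        intro h'
        have : a ∈ e.erase v := by rw [h]; simp
        rw [← h'] at this
        exact Finset.notMem_erase v e this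
      have hvb : v ≠ b := by
        intro h'
        have : b ∈ e.erase v := by rw [h]; simp
        rw [← h'] at this
        exact Finset.notMem_erase v e this
      have hee : e = {v, a, b} := by
        rw [← Finset.insert_erase he.2, h]
      have h2 : ((univ.filter (fun p : V × V => rel E v p.1 p.2)).filter
          (fun p : V × V => ({v, p.1, p.2} : Finset V) = e)) = {(a, b), (b, a)} := by
        ext ⟨x, y⟩
        simp only [Finset.mem_filter, Finset.mem_univ, true_and, Finset.mem_insert,
          Finset.mem_singleton, Prod.mk.injEq]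
        constructor
        · rintro ⟨⟨h3, h4, h5, h6⟩, h7⟩
          have hx : x ∈ ({v, a, b} : Finset V) := by rw [← hee, ← h7]; simp
          have hy : y ∈ ({v, a, b} : Finset V) := by rw [← hee, ← h7]; simp
          simp only [Finset.mem_insert, Finset.mem_singleton] at hx hy
          rcases hx with hx | hx | hx <;> rcases hy with hy | hy | hy
          · exact absurd hx.symm h3
          · exact absurd hx.symm h3
          · exact absurd hx.symm h3
          · exact absurd hy.symm h5
          · exact absurd (hx.trans hy.symm) h4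
          · exact Or.inl ⟨hx, hy⟩
          · exact absurd hy.symm h5
          · exact Or.inr ⟨hx, hy⟩
          · exact absurd (hx.trans hy.symm) h4
        · rintro (⟨rfl, rfl⟩ | ⟨rfl, rfl⟩)
          · refine ⟨⟨hva, hab, hvb, ?_⟩, hee.symm⟩
            rw [← hee]
            exact he.1
          · refine ⟨⟨hvb, hab.symm, hva, ?_⟩, ?_⟩
            · rw [Finset.pair_comm, ← hee]
              exact he.1
            · rw [Finset.pair_comm, ← hee]
      rw [h2, Finset.card_pair]
      intro h3
      exact hab (Prod.mk.inj h3).1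
    rw [Finset.sum_congr rfl h1, Finset.sum_const, smul_eq_mul, mul_comm]
    rfl
  · intro p hp
    simp only [Finset.coe_filter, Finset.mem_univ, true_and, Set.mem_ofPred_eq] at hp ⊢
    exact ⟨hp.2.2.2, by simp⟩

/-- a packing covering exactly `X` -/
def Cov {W : Type v} (F : Finset (Finset W)) (E : Finset (Finset V)) (X : Finset V) : Prop :=
  ∃ P : Finset (W → V),
    (∀ f ∈ P, Function.Injective f ∧ ∀ e ∈ F, e.image f ∈ E) ∧
    (∀ f ∈ P, ∀ g ∈ P, f ≠ g → ∀ x y, f x ≠ g y) ∧
    ∀ v, v ∈ X ↔ ∃ f ∈ P, v ∈ Set.range f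

lemma cov_union {W : Type v} [Nonempty W] {F : Finset (Finset W)} {E : Finset (Finset V)}
    {X Y : Finset V} (hX : Cov F E X) (hY : Cov F E Y) (hd : Disjoint X Y) :
    Cov F E (X ∪ Y) := by
  classical
  obtain ⟨P, hP1, hP2, hP3⟩ := hX
  obtain ⟨Q, hQ1, hQ2, hQ3⟩ := hY
  have hPX : ∀ f ∈ P, ∀ x, f x ∈ X := fun f hf x => (hP3 _).2 ⟨f, hf, x, rfl⟩
  have hQY : ∀ f ∈ Q, ∀ x, f x ∈ Y := fun f hf x => (hQ3 _).2 ⟨f, hf, x, rfl⟩
  refine ⟨P ∪ Q, ?_, ?_, ?_⟩
  · intro f hf
    rw [Finset.mem_union] at hf
    rcases hf with hf | hf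
    · exact hP1 f hf
    · exact hQ1 f hf
  · intro f hf g hg hfg x y hxy
    rw [Finset.mem_union] at hf hg
    rcases hf with hf | hf <;> rcases hg with hg | hg
    · exact hP2 f hf g hg hfg x y hxy
    · exact Finset.disjoint_left.1 hd (hPX f hf x) (hxy ▸ hQY g hg y)
    · exact Finset.disjoint_left.1 hd (hPX g hg y) (hxy ▸ hQY f hf x)
    · exact hQ2 f hf g hg hfg x y hxy
  · intro v
    rw [Finset.mem_union, hP3, hQ3]
    constructor
    · rintro (⟨f, hf, h⟩ | ⟨f, hf, h⟩)
      · exact ⟨f, Finset.mem_union_left _ hf, h⟩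
      · exact ⟨f, Finset.mem_union_right _ hf, h⟩
    · rintro ⟨f, hf, h⟩
      rw [Finset.mem_union] at hf
      rcases hf with hf | hf
      · exact Or.inl ⟨f, hf, h⟩
      · exact Or.inr ⟨f, hf, h⟩

/-- a complete tripartite set with parts of size `|W|` is covered by three copies -/
lemma cov_tri {W : Type v} [Fintype W] [DecidableEq W] {F : Finset (Finset W)}
    (hF : IsTripartite F) {E : Finset (Finset V)} {X : Finset V}
    (hX : IsTri (rel E) (Fintype.card W) X) : Cov F E X := by
  classical
  obtain ⟨part, hpart⟩ := hF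
  obtain ⟨A, B, C, hA, hB, hC, rfl, hABC⟩ := hX
  rcases isEmpty_or_nonempty W with hW | hW
  · have hcard : Fintype.card W = 0 := Fintype.card_eq_zero
    rw [hcard, Finset.card_eq_zero] at hA hB hC
    subst hA hB hC
    exact ⟨∅, by simp, by simp, by simp⟩
  have hpos : 0 < Fintype.card W := Fintype.card_pos
  obtain ⟨a0, ha0⟩ : A.Nonempty := Finset.card_pos.1 (by omega)
  obtain ⟨b0, hb0⟩ : B.Nonempty := Finset.card_pos.1 (by omega)
  obtain ⟨c0, hc0⟩ : C.Nonempty := Finset.card_pos.1 (by omega)
  have hdAB : Disjoint A B := by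
    rw [Finset.disjoint_left]
    intro x hx hx'
    exact (hABC x hx x hx' c0 hc0).1 rfl
  have hdAC : Disjoint A C := by
    rw [Finset.disjoint_left]
    intro x hx hx'
    exact (hABC x hx b0 hb0 x hx').2.2.1 rfl
  have hdBC : Disjoint B C := by
    rw [Finset.disjoint_left]
    intro x hx hx'
    exact (hABC a0 ha0 x hx x hx').2.1 rfl
  set S : Fin 3 → Finset V := ![A, B, C] with hS
  have hSc : ∀ i, (S i).card = Fintype.card W := by
    intro i
    fin_cases i
    · exact hA
    · exact hB
    · exact hC
  have hSd : ∀ i j, i ≠ j → Disjoint (S i) (S j) := by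
    intro i j hij
    fin_cases i <;> fin_cases j
    · exact absurd rfl hij
    · exact hdAB
    · exact hdAC
    · exact hdAB.symm
    · exact absurd rfl hij
    · exact hdBC
    · exact hdAC.symm
    · exact hdBC.symm
    · exact absurd rfl hij
  have hSE : ∀ x y z : V, ∀ i j l : Fin 3, i ≠ j → j ≠ l → i ≠ l → x ∈ S i → y ∈ S j → z ∈ S l →
      ({x, y, z} : Finset V) ∈ E := by
    intro x y z i j l hij hjl hil hx hy hz
    have p1 : ∀ a b c : V, ({a, b, c} : Finset V) = {b, a, c} := fun a b c =>
      Finset.insert_comm _ _ _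
    have p2 : ∀ a b c : V, ({a, b, c} : Finset V) = {a, c, b} := fun a b c => by
      rw [Finset.pair_comm]
    fin_cases i <;> fin_cases j <;> fin_cases l <;>
      first
        | exact absurd rfl hij
        | exact absurd rfl hjl
        | exact absurd rfl hil
        | exact (hABC x hx y hy z hz).2.2.2
        | (rw [p2]; exact (hABC x hx z hz y hy).2.2.2)
        | (rw [p1]; exact (hABC y hy x hx z hz).2.2.2)
        | (rw [p1, p2]; exact (hABC y hy z hz x hx).2.2.2)
        | (rw [p2, p1]; exact (hABC z hz x hx y hy).2.2.2)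
        | (rw [p1, p2, p1]; exact (hABC z hz y hy x hx).2.2.2)
  have hP : ∀ i, ∃ f : W → V, Function.Injective f ∧ (∀ w, f w ∈ S i) ∧
      ∀ v ∈ S i, ∃ w, f w = v := by
    intro i
    have h1 : Fintype.card W = Fintype.card (S i) := by
      rw [Fintype.card_coe, hSc i]
    obtain ⟨e⟩ := Fintype.card_eq.1 h1
    refine ⟨fun w => (e w : V), ?_, ?_, ?_⟩
    · intro w w' h
      exact e.injective (Subtype.ext h)
    · intro w
      exact (e w).2
    · intro v hv
      exact ⟨e.symm ⟨v, hv⟩, by simp⟩
  choose f hf1 hf2 hf3 using hP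
  have hff : ∀ i j w w', f i w = f j w' → i = j ∧ w = w' := by
    intro i j w w' h
    have h1 : i = j := by
      by_contra hij
      exact Finset.disjoint_left.1 (hSd i j hij) (hf2 i w) (h ▸ hf2 j w')
    subst h1
    exact ⟨rfl, hf1 i h⟩
  set φ : Fin 3 → W → V := fun j w => f (part w + j) w with hφ
  refine ⟨univ.image φ, ?_, ?_, ?_⟩
  · intro g hg
    rw [Finset.mem_image] at hg
    obtain ⟨j, _, rfl⟩ := hg
    constructor
    · intro w w' h
      exact (hff _ _ _ _ h).2
    · intro e he
      obtain ⟨x, ⟨hx, hx'⟩, hxu⟩ := hpart e he 0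
      obtain ⟨y, ⟨hy, hy'⟩, hyu⟩ := hpart e he 1
      obtain ⟨z, ⟨hz, hz'⟩, hzu⟩ := hpart e he 2
      have hee : e = {x, y, z} := by
        ext w
        simp only [Finset.mem_insert, Finset.mem_singleton]
        constructor
        · intro hw
          have h3 : part w = 0 ∨ part w = 1 ∨ part w = 2 := by
            generalize part w = i
            fin_cases i
            · exact Or.inl rfl
            · exact Or.inr (Or.inl rfl)
            · exact Or.inr (Or.inr rfl)
          rcases h3 with h3 | h3 | h3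
          · exact Or.inl (hxu w ⟨hw, h3⟩)
          · exact Or.inr (Or.inl (hyu w ⟨hw, h3⟩))
          · exact Or.inr (Or.inr (hzu w ⟨hw, h3⟩))
        · rintro (rfl | rfl | rfl)
          · exact hx
          · exact hy
          · exact hz
      rw [hee, Finset.image_insert, Finset.image_insert, Finset.image_singleton]
      refine hSE _ _ _ (part x + j) (part y + j) (part z + j) ?_ ?_ ?_ (hf2 _ _) (hf2 _ _)
        (hf2 _ _)
      · rw [hx', hy']
        intro h
        exact absurd (add_right_cancel h) (by decide)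
      · rw [hy', hz']
        intro h
        exact absurd (add_right_cancel h) (by decide)
      · rw [hx', hz']
        intro h
        exact absurd (add_right_cancel h) (by decide)
  · intro g hg g' hg' hgg x y hxy
    rw [Finset.mem_image] at hg hg'
    obtain ⟨j, _, rfl⟩ := hg
    obtain ⟨j', _, rfl⟩ := hg'
    obtain ⟨h1, h2⟩ := hff _ _ _ _ hxy
    subst h2
    apply hgg
    rw [add_left_cancel h1]
  · intro v
    constructor
    · intro hv
      have h1 : ∃ i, v ∈ S i := by
        rw [Finset.mem_union, Finset.mem_union] at hv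
        rcases hv with (hv | hv) | hv
        · exact ⟨0, hv⟩
        · exact ⟨1, hv⟩
        · exact ⟨2, hv⟩
      obtain ⟨i, hi⟩ := h1
      obtain ⟨w, hw⟩ := hf3 i v hi
      refine ⟨φ (i - part w), Finset.mem_image_of_mem _ (Finset.mem_univ _), w, ?_⟩
      rw [hφ]
      simp only
      rw [add_sub_cancel, hw]
    · rintro ⟨g, hg, w, rfl⟩
      rw [Finset.mem_image] at hg
      obtain ⟨j, _, rfl⟩ := hg
      have h1 : ∀ i, ∀ u ∈ S i, u ∈ A ∪ B ∪ C := by
        intro i u hu
        rw [Finset.mem_union, Finset.mem_union]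
        fin_cases i
        · exact Or.inl (Or.inl hu)
        · exact Or.inl (Or.inr hu)
        · exact Or.inr hu
      exact h1 _ _ (hf2 _ _)

lemma cov_tile {W : Type v} [Fintype W] [DecidableEq W] [Nonempty W] {F : Finset (Finset W)}
    (hF : IsTripartite F) {E : Finset (Finset V)} {X : Finset V}
    (hX : Tile (IsTri (rel E) (Fintype.card W)) X) : Cov F E X := by
  classical
  induction hX with
  | empty => exact ⟨∅, by simp, by simp, by simp⟩
  | @add X S hX hS hd ih => exact cov_union (cov_tri hF hS) ih hd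

theorem strong (W : Type v) [Fintype W] [DecidableEq W] [Nonempty W] (F : Finset (Finset W))
    (hT : IsTripartite F) (c : ℝ) (hc0 : 0 < c) (hc1 : c < 1) :
    ∃ ε : ℝ, 0 < ε ∧ ∃ C : ℕ, 0 < C ∧
      ∀ (V : Type u) [Fintype V] [DecidableEq V] (E : Finset (Finset V)), IsThreeGraph E →
        (∃ d : ℝ, ∀ v, |(deg E v : ℝ) - d| ≤ ε * (Fintype.card V : ℝ) ^ 2) →
        (∀ u v, u ≠ v → c * Fintype.card V ≤ (pairDeg E u v : ℝ)) →
        HasPacking F E C := by
  obtain ⟨C, hC⟩ := main_tile.{u} (Fintype.card W) (Fintype.card_pos) c hc0 hc1.le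
  refine ⟨c ^ 3 / 1572864, by positivity, C + 1, Nat.succ_pos _, ?_⟩
  intro V _ _ E hE ⟨d, hd⟩ hpair
  classical
  obtain ⟨X, hX1, hX2⟩ := hC V (rel E) (rel_sym E)
    (fun u v huv => by
      rw [cnt_pairDeg E huv]
      exact hpair u v huv)
    (2 * d)
    (fun v => by
      rw [cnt_deg E hE v]
      push_cast
      rw [← mul_sub, abs_mul, abs_of_pos (two_pos)]
      have := hd v
      linarith)
  obtain ⟨P, hP1, hP2, hP3⟩ := cov_tile hT hX1
  refine ⟨P, hP1, hP2, univ \ X, hX2.trans (Nat.le_succ _), ?_⟩
  intro v hv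
  rw [Finset.mem_sdiff, not_and, not_not] at hv
  obtain ⟨f, hf, x, hx⟩ := (hP3 v).1 (hv (Finset.mem_univ _))
  exact ⟨f, hf, x, hx⟩

/-- **Main result.** For every tripartite 3-graph `F` on a nonempty vertex set `W` and all
`0 < c < 1`:
* (Q1) there is `C > 0` such that every vertex-regular 3-graph on `n` vertices with common degree
  at least `c n ^ 2` and all pair degrees at least `c n` has an `F`-packing covering all but at
  most `C` vertices;
* (stronger) there are `ε > 0` and `C > 0` such that every 3-graph on `n` vertices whose vertex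
  degrees all lie within `ε n ^ 2` of some number `d` and all of whose pair degrees are at least
  `c n` has an `F`-packing covering all but at most `C` vertices. -/
theorem result (W : Type v) [Fintype W] [DecidableEq W] [Nonempty W] (F : Finset (Finset W))
    (_hF : IsThreeGraph F) (hT : IsTripartite F) (c : ℝ) (hc0 : 0 < c) (hc1 : c < 1) :
    (∃ C : ℕ, 0 < C ∧
      ∀ (V : Type u) [Fintype V] [DecidableEq V] (E : Finset (Finset V)), IsThreeGraph E →
        (∃ d : ℕ, c * (Fintype.card V : ℝ) ^ 2 ≤ d ∧ ∀ v, deg E v = d) →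
        (∀ u v, u ≠ v → c * Fintype.card V ≤ (pairDeg E u v : ℝ)) →
        HasPacking F E C) ∧
    (∃ ε : ℝ, 0 < ε ∧ ∃ C : ℕ, 0 < C ∧
      ∀ (V : Type u) [Fintype V] [DecidableEq V] (E : Finset (Finset V)), IsThreeGraph E →
        (∃ d : ℝ, ∀ v, |(deg E v : ℝ) - d| ≤ ε * (Fintype.card V : ℝ) ^ 2) →
        (∀ u v, u ≠ v → c * Fintype.card V ≤ (pairDeg E u v : ℝ)) →
        HasPacking F E C) := by
  have h := strong.{u, v} W F hT c hc0 hc1
  refine ⟨?_, h⟩
  obtain ⟨ε, hε, C, hC, h⟩ := h
  refine ⟨C, hC, ?_⟩
  intro V _ _ E hE ⟨d, _, hd⟩ hpair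
  refine h V E hE ⟨d, fun v => ?_⟩ hpair
  rw [hd v, sub_self, abs_zero]
  positivity

end Pool.Agent.Results.MP_b50c09_co.AllTripartite
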